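import Pool.Agent.W662.CB.Stmts2
import Pool.Agent.W917.CB.D2
import Pool.Agent.W977.CB.D1
import Pool.Agent.W672.CB.D3

/-!
# Project CB2: uniqueness of the trace (`S_Q3`)
-/

set_option autoImplicit false

open Filter Topology Complex
open scoped InnerProductSpace

namespace Pool.Agent.W816.CB2.Q3

open Pool.Agent.W662.CB
open Pool.Agent.W917.CB.D2

section

variable {K : Type} [NormedAddCommGroup K] [InnerProductSpace ℂ K] [CompleteSpace K]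

/-- polarised trace property -/
theorem polar {B : VonNeumannAlgebra K} {p : K →L[ℂ] K} {ζ : K}
    (hnorm : ∀ Z : K →L[ℂ] K, Z ∈ B → p * Z * p = Z → ‖Z ζ‖ = ‖star Z ζ‖)
    {X Y : K →L[ℂ] K} (hX : X ∈ B) (hXp : p * X * p = X) (hY : Y ∈ B) (hYp : p * Y * p = Y) :
    ⟪X ζ, Y ζ⟫_ℂ = ⟪(star Y) ζ, (star X) ζ⟫_ℂ := by
  have key : ∀ a : ℂ, (a * ⟪X ζ, Y ζ⟫_ℂ).re = (a * ⟪(star Y) ζ, (star X) ζ⟫_ℂ).re := by
    intro a
    have h1 := hnorm (X + a • Y) (add_mem hX (B.toStarSubalgebra.toSubalgebra.smul_mem hY a)) (by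
      rw [mul_add, add_mul, hXp, mul_smul_comm, smul_mul_assoc, hYp])
    have h2 := hnorm X hX hXp
    have h3 := hnorm Y hY hYp
    have e1 : (X + a • Y) ζ = X ζ + a • Y ζ := rfl
    have e2 : (star (X + a • Y)) ζ = (star X) ζ + (starRingEnd ℂ a) • (star Y) ζ := by
      rw [star_add, star_smul]; rfl
    have h4 : ‖X ζ + a • Y ζ‖ ^ 2 = ‖(star X) ζ + (starRingEnd ℂ a) • (star Y) ζ‖ ^ 2 := by
      rw [← e1, ← e2, h1]
    have h5 := @norm_add_sq ℂ K _ _ _ (X ζ) (a • Y ζ)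
    have h6 := @norm_add_sq ℂ K _ _ _ ((star X) ζ) ((starRingEnd ℂ a) • (star Y) ζ)
    rw [inner_smul_right, norm_smul] at h5 h6
    rw [RCLike.norm_conj] at h6
    have e3 : (starRingEnd ℂ a * ⟪(star X) ζ, (star Y) ζ⟫_ℂ).re =
        (a * ⟪(star Y) ζ, (star X) ζ⟫_ℂ).re := by
      rw [← inner_conj_symm ((star X) ζ) ((star Y) ζ), ← map_mul, Complex.conj_re]
    have e4 : RCLike.re (a * ⟪X ζ, Y ζ⟫_ℂ) = (a * ⟪X ζ, Y ζ⟫_ℂ).re := rfl
    have e5 : RCLike.re (starRingEnd ℂ a * ⟪(star X) ζ, (star Y) ζ⟫_ℂ) =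
        (starRingEnd ℂ a * ⟪(star X) ζ, (star Y) ζ⟫_ℂ).re := rfl
    rw [e4] at h5
    rw [e5, e3] at h6
    rw [h5, h6, h2, h3] at h4
    linarith
  apply Complex.ext
  · have := key 1
    simpa using this
  · have := key I
    simp at this
    exact this

/-- the functional `W ↦ ⟨S ζ, S W ζ⟩` -/
noncomputable def om (S : K →L[ℂ] K) (ζ : K) (W : K →L[ℂ] K) : ℂ := ⟪S ζ, S (W ζ)⟫_ℂ

theorem comm_app {S T : K →L[ℂ] K} (h : S * T = T * S) (v : K) : S (T v) = T (S v) := by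
  have := congrArg (fun Z : K →L[ℂ] K => Z v) h
  simpa using this

theorem om_conj {A B : VonNeumannAlgebra K} (hAB : ∀ x : K →L[ℂ] K, x ∈ A → x ∈ B)
    {p : K →L[ℂ] K} (hpA : p ∈ A) (hp : p * p = p) (hs : star p = p) {ζ : K} (hT : TrV B p ζ)
    {S : K →L[ℂ] K} (hS : Rel A B S) {u : K →L[ℂ] K} (hu : u ∈ UU A p) {W : K →L[ℂ] K}
    (hW : W ∈ A) (hWp : p * W * p = W) : om S ζ (u * W * star u) = om S ζ W := by
  obtain ⟨hSB, hSc⟩ := hS
  have hpB : p ∈ B := hAB p hpA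
  obtain ⟨hW1, hW2⟩ := corner hp hWp
  have hup : u * p = u := right_p hp hs hu.2.1
  have hpsu : p * star u = star u := by
    have := congrArg star hup
    rwa [star_mul, hs] at this
  have hsup : star u * p = star u := star_right hp hs hu.2.2
  have hSp : p * S = S * p := hSc p hpA
  have hS'p1 : p * (S * p) = S * p := by rw [← mul_assoc, hSp, mul_assoc, hp]
  have hS'p2 : S * p * p = S * p := by rw [mul_assoc, hp]
  have hpS' : p * star (S * p) = star (S * p) := by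
    have := congrArg star hS'p2
    rwa [star_mul, hs] at this
  have hSpB : S * p ∈ B := mul_mem hSB hpB
  have hWB : W ∈ B := hAB W hW
  have huB : star u ∈ B := star_mem (hAB u hu.1)
  have hSapp : ∀ v : K, p v = v → S v = (S * p) v := by
    intro v hv
    rw [mul_apply_eq_comp, hv]
  have hXB : S * p * star u ∈ B := mul_mem hSpB huB
  have hXp : p * (S * p * star u) * p = S * p * star u := by
    refine ofcorner ?_ ?_
    · rw [← mul_assoc, hS'p1]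
    · rw [mul_assoc, hsup]
  have hYB : S * p * (W * star u) ∈ B := mul_mem hSpB (mul_mem hWB huB)
  have hYp : p * (S * p * (W * star u)) * p = S * p * (W * star u) := by
    refine ofcorner ?_ ?_
    · rw [← mul_assoc, hS'p1]
    · simp only [mul_assoc]
      rw [hsup]
  have hZB : S * p * W ∈ B := mul_mem hSpB hWB
  have hZp : p * (S * p * W) * p = S * p * W := by
    refine ofcorner ?_ ?_
    · rw [← mul_assoc, hS'p1]
    · rw [mul_assoc, hW2]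
  have hS'pp : p * (S * p) * p = S * p := ofcorner hS'p1 hS'p2
  have hus : star u ∈ A := star_mem hu.1
  have s1 : om S ζ (u * W * star u) = ⟪(S * p * star u) ζ, (S * p * (W * star u)) ζ⟫_ℂ := by
    unfold om
    have a1 : S ((u * W * star u) ζ) = u (S (W ((star u) ζ))) := by
      have : (u * W * star u) ζ = u (W ((star u) ζ)) := rfl
      rw [this]
      exact (comm_app (hSc u hu.1) _).symm
    have a2 : (star u) (S ζ) = S ((star u) ζ) := comm_app (hSc (star u) hus) ζ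
    have a3 : S ((star u) ζ) = (S * p * star u) ζ := by
      rw [hSapp _ (papp hpsu ζ)]
      rfl
    have a4 : S (W ((star u) ζ)) = (S * p * (W * star u)) ζ := by
      rw [hSapp _ (papp hW1 _)]
      rfl
    rw [a1, inner_star, a2, a3, a4]
  have s2 := polar hT.tr hXB hXp hYB hYp
  have s3 : ⟪(star (S * p * (W * star u))) ζ, (star (S * p * star u)) ζ⟫_ℂ =
      ⟪(star (S * p * W)) ζ, (star (S * p)) ζ⟫_ℂ := by
    have b1 : (star (S * p * (W * star u))) ζ = u ((star (S * p * W)) ζ) := by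
      have : star (S * p * (W * star u)) = u * star (S * p * W) := by
        rw [← mul_assoc, star_mul (S * p * W) (star u), star_star]
      rw [this]
      rfl
    have b2 : (star (S * p * star u)) ζ = u ((star (S * p)) ζ) := by
      have : star (S * p * star u) = u * star (S * p) := by
        rw [star_mul (S * p) (star u), star_star]
      rw [this]
      rfl
    rw [b1, b2, inner_star]
    have b3 : ⟪(star u) (u ((star (S * p * W)) ζ)), (star (S * p)) ζ⟫_ℂ =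
        ⟪(star u * u) ((star (S * p * W)) ζ), (star (S * p)) ζ⟫_ℂ := rfl
    rw [b3, hu.2.1]
    have b4 : ⟪p ((star (S * p * W)) ζ), (star (S * p)) ζ⟫_ℂ =
        ⟪(star (S * p * W)) ζ, p ((star (S * p)) ζ)⟫_ℂ := by
      rw [inner_star p, hs]
    rw [b4, papp hpS']
  have s4 := polar hT.tr hSpB hS'pp hZB hZp
  have s5 : om S ζ W = ⟪(S * p) ζ, (S * p * W) ζ⟫_ℂ := by
    unfold om
    rw [hSapp _ hT.fix, hSapp _ (papp hW1 ζ)]
    rfl
  rw [s1, s2, s3, ← s4, s5]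

/-- the convex set -/
def C1 (A : VonNeumannAlgebra K) (p q S : K →L[ℂ] K) (ζ : K) : Set (K →L[ℂ] K) :=
  {W | W ∈ A ∧ p * W * p = W ∧ ‖W‖ ≤ ‖q‖ ∧ om 1 ζ W = om 1 ζ q ∧ om S ζ W = om S ζ q}

theorem om_conv (S : K →L[ℂ] K) (ζ : K) (W1 W2 : K →L[ℂ] K) (a b : ℂ) :
    om S ζ (a • W1 + b • W2) = a * om S ζ W1 + b * om S ζ W2 := by
  unfold om
  have : (a • W1 + b • W2) ζ = a • W1 ζ + b • W2 ζ := rfl
  rw [this, map_add, map_smul, map_smul, inner_add_right, inner_smul_right, inner_smul_right]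

theorem rel_one (A B : VonNeumannAlgebra K) : Rel A B 1 :=
  ⟨one_mem B, fun Y _ => by rw [mul_one, one_mul]⟩

theorem hconj1 {A B : VonNeumannAlgebra K} (hAB : ∀ x : K →L[ℂ] K, x ∈ A → x ∈ B)
    {p : K →L[ℂ] K} (hpA : p ∈ A) (hp : p * p = p) (hs : star p = p) {ζ : K} (hT : TrV B p ζ)
    {S : K →L[ℂ] K} (hS : Rel A B S) {q : K →L[ℂ] K}
    {W : K →L[ℂ] K} (hW : W ∈ C1 A p q S ζ) {v : K →L[ℂ] K} (hv : v ∈ UU A p) :
    v * W * star v ∈ C1 A p q S ζ := by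
  obtain ⟨h1, h2, h3, h4, h5⟩ := hW
  have hpv := left_p hp hs hv.2.2
  have hsv : star v * p = star v := star_right hp hs hv.2.2
  have hnv := norm_u_le hp hs hv.2.1
  refine ⟨mul_mem (mul_mem hv.1 h1) (star_mem hv.1), ofcorner ?_ ?_, ?_, ?_, ?_⟩
  · rw [← mul_assoc, ← mul_assoc, hpv]
  · rw [mul_assoc, hsv]
  · calc ‖v * W * star v‖ ≤ ‖v * W‖ * ‖star v‖ := norm_mul_le _ _
      _ ≤ ‖v‖ * ‖W‖ * ‖v‖ := by
        rw [norm_star]
        exact mul_le_mul_of_nonneg_right (norm_mul_le _ _) (norm_nonneg _)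
      _ ≤ 1 * ‖W‖ * 1 := by gcongr
      _ ≤ ‖q‖ := by linarith
  · rw [om_conj hAB hpA hp hs hT (rel_one A B) hv h1 h2, h4]
  · rw [om_conj hAB hpA hp hs hT hS hv h1 h2, h5]

theorem hconv1 {A : VonNeumannAlgebra K} {p q S : K →L[ℂ] K} {ζ : K}
    {W1 W2 : K →L[ℂ] K} (hW1 : W1 ∈ C1 A p q S ζ) (hW2 : W2 ∈ C1 A p q S ζ) {a b : ℝ}
    (ha : 0 ≤ a) (hb : 0 ≤ b) (hab : a + b = 1) :
    (a : ℂ) • W1 + (b : ℂ) • W2 ∈ C1 A p q S ζ := by
  obtain ⟨h1, h2, h3, h4, h5⟩ := hW1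
  obtain ⟨k1, k2, k3, k4, k5⟩ := hW2
  have hab' : (a : ℂ) + (b : ℂ) = 1 := by exact_mod_cast hab
  refine ⟨?_, ?_, ?_, ?_, ?_⟩
  · exact add_mem (A.toStarSubalgebra.toSubalgebra.smul_mem h1 (a : ℂ))
      (A.toStarSubalgebra.toSubalgebra.smul_mem k1 (b : ℂ))
  · rw [mul_add, add_mul, mul_smul_comm, mul_smul_comm, smul_mul_assoc, smul_mul_assoc, h2, k2]
  · calc ‖(a : ℂ) • W1 + (b : ℂ) • W2‖ ≤ ‖(a : ℂ) • W1‖ + ‖(b : ℂ) • W2‖ := norm_add_le _ _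
      _ = a * ‖W1‖ + b * ‖W2‖ := by
        rw [norm_smul, norm_smul, Complex.norm_real, Complex.norm_real,
          Real.norm_of_nonneg ha, Real.norm_of_nonneg hb]
      _ ≤ a * ‖q‖ + b * ‖q‖ := by gcongr
      _ = ‖q‖ := by rw [← add_mul, hab, one_mul]
  · rw [om_conv, h4, k4, ← add_mul, hab', one_mul]
  · rw [om_conv, h5, k5, ← add_mul, hab', one_mul]

end

theorem main (K : Type) [NormedAddCommGroup K] [InnerProductSpace ℂ K] [CompleteSpace K]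
    (A B : VonNeumannAlgebra K) (hAB : ∀ x : K →L[ℂ] K, x ∈ A → x ∈ B)
    (p : K →L[ℂ] K) (hpA : p ∈ A) (hp : p * p = p) (hs : star p = p) (ζ : K) (hT : TrV B p ζ)
    (S : K →L[ℂ] K) (hS : Rel A B S) (q : K →L[ℂ] K) (hqA : q ∈ A) (hqp : p * q * p = q) :
    ∃ Z0 : K →L[ℂ] K, Z0 ∈ A ∧ p * Z0 * p = Z0 ∧ om 1 ζ Z0 = om 1 ζ q ∧ om S ζ Z0 = om S ζ q ∧
      ∀ u : K →L[ℂ] K, u ∈ A → star u * u = p → u * star u = p → u * Z0 = Z0 * u := by
  have hnorm := hT.tr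
  have hsep := hT.sep
  have hpB : p ∈ B := hAB p hpA
  have hqC : q ∈ C1 A p q S ζ := ⟨hqA, hqp, le_rfl, rfl, rfl⟩
  obtain ⟨η, hη, hmin'⟩ := min_elt ((fun W : K →L[ℂ] K => W ζ) '' C1 A p q S ζ)
    ⟨q ζ, ⟨q, hqC, rfl⟩⟩ (by
      rintro _ ⟨W1, hW1, rfl⟩ _ ⟨W2, hW2, rfl⟩ a b ha hb hab
      exact ⟨(a : ℂ) • W1 + (b : ℂ) • W2, hconv1 hW1 hW2 ha hb hab, rfl⟩)
  obtain ⟨x, hxS, hx⟩ := mem_closure_iff_seq_limit.1 hη
  choose W hWC hWx using hxS
  have hWx' : ∀ n, W n ζ = x n := hWx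
  have hGle : ((hyperfilter ℕ : Ultrafilter ℕ) : Filter ℕ) ≤ atTop := Nat.hyperfilter_le_atTop
  obtain ⟨Z0, _, hlim⟩ := wlim (hyperfilter ℕ) ‖q‖ W (fun n => (hWC n).2.2.1)
  have hZ0A : Z0 ∈ A := wlim_mem (hyperfilter ℕ) A W (fun n => (hWC n).1) Z0 hlim
  have hZ0B : Z0 ∈ B := hAB Z0 hZ0A
  have hZ0p : p * Z0 * p = Z0 := by
    ext b
    refine ext_inner_left ℂ fun a => ?_
    have h1 : Tendsto (fun n => ⟪star p a, W n (p b)⟫_ℂ) (hyperfilter ℕ)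
        (𝓝 ⟪star p a, Z0 (p b)⟫_ℂ) := hlim _ _
    have h2 := hlim a b
    have h3 : ∀ n, ⟪star p a, W n (p b)⟫_ℂ = ⟪a, W n b⟫_ℂ := by
      intro n
      rw [← inner_star]
      have := congrArg (fun T : K →L[ℂ] K => T b) (hWC n).2.1
      simp only [mul_apply_eq_comp] at this
      rw [this]
    simp only [h3] at h1
    have h4 := tendsto_nhds_unique h1 h2
    rw [← inner_star] at h4
    exact h4
  have hom : ∀ T : K →L[ℂ] K, (∀ n, om T ζ (W n) = om T ζ q) → om T ζ Z0 = om T ζ q := by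
    intro T hTn
    have h1 : Tendsto (fun n => ⟪(star T) (T ζ), W n ζ⟫_ℂ) (hyperfilter ℕ)
        (𝓝 ⟪(star T) (T ζ), Z0 ζ⟫_ℂ) := hlim _ _
    have h2 : ∀ n, ⟪(star T) (T ζ), W n ζ⟫_ℂ = om T ζ q := by
      intro n
      rw [← inner_star]
      exact hTn n
    simp only [h2] at h1
    have h3 := tendsto_nhds_unique h1 tendsto_const_nhds
    rw [← inner_star] at h3
    exact h3
  have hZ0η : Z0 ζ = η := by
    refine ext_inner_left ℂ fun a => ?_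
    have h1 := hlim a ζ
    simp only [hWx'] at h1
    have h2 : Tendsto (fun n => ⟪a, x n⟫_ℂ) (hyperfilter ℕ) (𝓝 ⟪a, η⟫_ℂ) :=
      (tendsto_const_nhds.inner hx).mono_left hGle
    exact tendsto_nhds_unique h1 h2
  refine ⟨Z0, hZ0A, hZ0p, hom 1 (fun n => (hWC n).2.2.2.1), hom S (fun n => (hWC n).2.2.2.2), ?_⟩
  intro u hu1 hu2 hu3
  have huU : u ∈ UU A p := ⟨hu1, hu2, hu3⟩
  have huB : u ∈ B := hAB u hu1
  obtain ⟨hZ01, hZ02⟩ := corner hp hZ0p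
  have hpu := left_p hp hs hu3
  have hsu : star u * p = star u := star_right hp hs hu3
  -- the norm
  have hn : ‖(u * Z0 * star u) ζ‖ = ‖η‖ := by
    have h1 : ‖(u * Z0 * star u) ζ‖ = ‖(Z0 * star u) ζ‖ := by
      rw [mul_assoc]
      exact nl huU (by rw [← mul_assoc, hZ01]) ζ
    rw [h1, nr hAB hp hs hnorm huU hZ0B hZ0p, hZ0η]
  -- the inner product
  have hin : ‖η‖ ^ 2 ≤ (⟪η, (u * Z0 * star u) ζ⟫_ℂ).re := by
    have h1 : Tendsto (fun n => ⟪star u η, W n (star u ζ)⟫_ℂ) (hyperfilter ℕ)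
        (𝓝 ⟪star u η, Z0 (star u ζ)⟫_ℂ) := hlim _ _
    have h2 : Tendsto (fun n => (⟪star u η, W n (star u ζ)⟫_ℂ).re) (hyperfilter ℕ)
        (𝓝 (⟪star u η, Z0 (star u ζ)⟫_ℂ).re) :=
      (Complex.continuous_re.tendsto _).comp h1
    have h3 : ∀ n, ‖η‖ ^ 2 ≤ (⟪star u η, W n (star u ζ)⟫_ℂ).re := by
      intro n
      rw [← inner_star]
      exact hmin' _ (subset_closure ⟨u * W n * star u,
        hconj1 hAB hpA hp hs hT hS (hWC n) huU, rfl⟩)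
    have h4 := ge_of_tendsto' h2 h3
    rw [← inner_star] at h4
    exact h4
  have heq : (u * Z0 * star u) ζ = η := by
    have h1 : ‖η - (u * Z0 * star u) ζ‖ ^ 2 ≤ 0 := by
      have h2 := @norm_sub_sq ℂ K _ _ _ η ((u * Z0 * star u) ζ)
      rw [h2, hn]
      have h3 : RCLike.re ⟪η, (u * Z0 * star u) ζ⟫_ℂ = (⟪η, (u * Z0 * star u) ζ⟫_ℂ).re := rfl
      rw [h3]
      linarith
    have h4 : ‖η - (u * Z0 * star u) ζ‖ = 0 := by
      have := norm_nonneg (η - (u * Z0 * star u) ζ)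
      nlinarith
    exact (sub_eq_zero.1 (norm_eq_zero.1 h4)).symm
  have hzero : u * Z0 * star u - Z0 = 0 := by
    refine hsep _ (sub_mem (mul_mem (mul_mem huB hZ0B) (star_mem huB)) hZ0B) ?_ ?_
    · refine ofcorner ?_ ?_
      · rw [mul_sub, ← mul_assoc, ← mul_assoc, hpu, hZ01]
      · rw [sub_mul, mul_assoc, hsu, hZ02]
    · have h6 : (u * Z0 * star u - Z0) ζ = (u * Z0 * star u) ζ - Z0 ζ := rfl
      rw [h6, heq, hZ0η, sub_self]
  have h5 : u * Z0 * star u = Z0 := sub_eq_zero.1 hzero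
  calc u * Z0 = u * (Z0 * p) := by rw [hZ02]
    _ = u * Z0 * star u * u := by
      rw [← hu2]
      simp only [mul_assoc]
    _ = Z0 * u := by rw [h5]

theorem q3 (_h2 : S_Q2) : S_Q3 := by
  intro K _ _ _ A B hAB hfac p hpA hp hs ζ hT S hS q hqA hqq hqs hpq
  have hqp : q * p = q := by
    have := congrArg star hpq
    rwa [star_mul, hs, hqs] at this
  have hqpp : p * q * p = q := ofcorner hpq hqp
  obtain ⟨Z0, hZA, hZp, hZ1, hZS, hZu⟩ :=
    main K A B hAB p hpA hp hs ζ hT S hS q hqA hqpp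
  have hcomm := Pool.Agent.W672.CB.D.d3 K A p hpA hp hs Z0 hZp hZu
  obtain ⟨c, hc⟩ := Pool.Agent.W977.CB.D1.d1 K A A (fun x hx => hx) hfac p hpA hp hs Z0 hZA hZp
    hcomm
  have hZζ : Z0 ζ = c • ζ := by
    rw [hc]
    show c • p ζ = c • ζ
    rw [hT.fix]
  have e1 : om 1 ζ Z0 = c * ((‖ζ‖ : ℂ) ^ 2) := by
    unfold om
    rw [hZζ]
    show ⟪ζ, c • ζ⟫_ℂ = _
    rw [inner_smul_right, inner_self_eq_norm_sq_to_K]
    rfl
  have e2 : om S ζ Z0 = c * ((‖S ζ‖ : ℂ) ^ 2) := by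
    unfold om
    rw [hZζ, map_smul, inner_smul_right, inner_self_eq_norm_sq_to_K]
    rfl
  have hqq' : ∀ v : K, q (q v) = q v := fun v => papp hqq v
  have e3 : om 1 ζ q = ((‖q ζ‖ : ℂ) ^ 2) := by
    unfold om
    show ⟪ζ, q ζ⟫_ℂ = _
    rw [← hqq' ζ, inner_star q, hqs, inner_self_eq_norm_sq_to_K, hqq']
    rfl
  have e4 : om S ζ q = ((‖S (q ζ)‖ : ℂ) ^ 2) := by
    unfold om
    have hc1 : ∀ v : K, q (S v) = S (q v) := fun v => comm_app (hS.2 q hqA) v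
    have h1 : S (q ζ) = q (S (q ζ)) := by rw [hc1, hqq']
    have h2 : ⟪S ζ, S (q ζ)⟫_ℂ = ⟪S (q ζ), S (q ζ)⟫_ℂ := by
      nth_rewrite 1 [h1]
      rw [inner_star q, hqs, hc1]
    rw [h2, inner_self_eq_norm_sq_to_K]
    rfl
  rw [e1, e3] at hZ1
  rw [e2, e4] at hZS
  have h1 : (‖S (q ζ)‖ : ℂ) ^ 2 * (‖ζ‖ : ℂ) ^ 2 = (‖S ζ‖ : ℂ) ^ 2 * (‖q ζ‖ : ℂ) ^ 2 := by
    rw [← hZ1, ← hZS]
    ring
  have h2 : (‖S (q ζ)‖ * ‖ζ‖) ^ 2 = (‖S ζ‖ * ‖q ζ‖) ^ 2 := by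
    have : ‖S (q ζ)‖ ^ 2 * ‖ζ‖ ^ 2 = ‖S ζ‖ ^ 2 * ‖q ζ‖ ^ 2 := by exact_mod_cast h1
    rw [mul_pow, mul_pow, this]
  exact (sq_eq_sq₀ (by positivity) (by positivity)).1 h2

end Pool.Agent.W816.CB2.Q3
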